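import Mathlib
import Pool.Agent.LibRC.Final
import Pool.Agent.LibRC.Poly

/-! There is a universal machine `U` such that every recursively enumerable set, in particular
the halting problem, is in `P` relative to the set of `C_U`-random strings. -/

namespace Pool.Agent.Results.MP_90f04a_lc.HaltPTuring

open Pool.Agent.LibRC Nat.Partrec

/-- The halting problem: binary codes (least significant digit first) of the pairs
`⟨c, n⟩` such that the program `c` halts on the input `n`. -/
def HALT : Set (List Bool) :=
  {w | ∃ (c : Code) (n : ℕ), w = Nat.bits (Nat.pair (Encodable.encode c) n) ∧ (c.eval n).Dom}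

/-- the number with the given binary digits -/
def val (w : List Bool) : ℕ := w.foldr (fun b n => Nat.bit b n) 0

theorem val_bits (m : ℕ) : val (Nat.bits m) = m := by
  induction m using Nat.binaryRec' with
  | zero => simp [val]
  | bit b n h ih =>
    rw [Nat.bits_append_bit n b h]
    simp only [val, List.foldr_cons] at ih ⊢
    rw [ih]

/-- canonical: no leading zero digit -/
def canon (w : List Bool) : Bool := w.getLast? != some false

theorem canon_iff (w : List Bool) : canon w = true ↔ Nat.bits (val w) = w := by
  induction w with
  | nil => simp [canon, val]
  | cons b w ih =>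
    have hv : val (b :: w) = Nat.bit b (val w) := rfl
    rw [hv]
    by_cases hw : w = []
    · subst hw
      cases b
      · simp [canon, val]
      · simp [canon, val]
    · have h1 : canon (b :: w) = canon w := by
        obtain ⟨a, l, rfl⟩ := List.exists_cons_of_ne_nil hw
        simp [canon, List.getLast?_cons_cons]
      rw [h1, ih]
      constructor
      · intro h
        have hne : val w ≠ 0 := by
          intro h0
          rw [h0] at h
          exact hw (by simpa using h.symm)
        rw [Nat.bits_append_bit _ _ (fun h0 => absurd h0 hne), h]
      · intro h
        have hne : val w = 0 → b = true := by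
          intro h0
          rw [h0] at h
          cases b
          · simp at h
          · rfl
        rw [Nat.bits_append_bit _ _ hne] at h
        exact (List.cons.inj h).2

theorem primrec_val : Primrec val := by
  have hb : Primrec₂ fun (b : Bool) (n : ℕ) => Nat.bit b n := by
    have h : Primrec fun p : Bool × ℕ => cond p.1 (2 * p.2 + 1) (2 * p.2) :=
      Primrec.cond Primrec.fst
        (Primrec.succ.comp (Primrec.nat_mul.comp (Primrec.const 2) Primrec.snd))
        (Primrec.nat_mul.comp (Primrec.const 2) Primrec.snd)
    exact h.of_eq (fun p => by cases p.1 <;> simp [Nat.bit])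
  exact Primrec.list_foldr Primrec.id (Primrec.const 0)
    (hb.comp (Primrec.fst.comp Primrec.snd) (Primrec.snd.comp Primrec.snd)).to₂

theorem halt_re : REPred fun w => w ∈ HALT := by
  have h1 : ∀ w, w ∈ HALT ↔ canon w = true ∧
      (Code.eval (Denumerable.ofNat Code (val w).unpair.1) (val w).unpair.2).Dom := by
    intro w
    constructor
    · rintro ⟨c, n, rfl, h⟩
      rw [canon_iff, val_bits]
      simpa using h
    · rintro ⟨h2, h3⟩
      refine ⟨_, _, ?_, h3⟩
      rw [Denumerable.encode_ofNat, Nat.pair_unpair]
      exact ((canon_iff w).1 h2).symm
  have hcanon : Computable canon := by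
    have h : Primrec fun w : List Bool => (w.reverse.head? != some false) := by
      have h2 : Primrec fun w : List Bool => w.reverse.head? :=
        Primrec.list_head?.comp Primrec.list_reverse
      have h3 : Primrec fun o : Option Bool => (o != some false) := Primrec.dom_finite _
      exact h3.comp h2
    exact (h.of_eq fun w => by simp [canon]).to_comp
  have hval : Computable val := primrec_val.to_comp
  have hev : Partrec fun w : List Bool =>
      (Code.eval (Denumerable.ofNat Code (val w).unpair.1) (val w).unpair.2).map fun _ => () := by
    refine Partrec.map ?_ (Computable.const ()).to₂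
    exact Code.eval_part.comp ((Computable.ofNat Code).comp (Computable.fst.comp
      (Computable.unpair.comp hval))) (Computable.snd.comp (Computable.unpair.comp hval))
  refine (Partrec.cond hcanon hev Partrec.none).of_eq fun w => ?_
  refine Part.ext fun u => ?_
  rw [Part.mem_assert_iff]
  cases hc : canon w
  · simp [h1, hc]
  · simp [h1, hc, Part.dom_iff_mem]

/-- There is a universal machine `U` such that every r.e. set of strings, in particular the
halting problem, is in `P^{R_{C_U}}`. -/
theorem result : ∃ U : List Bool →. List Bool, IsUniversal U ∧ InP (RandC U) HALT ∧
    ∀ H : Set (List Bool), REPred (fun w => w ∈ H) → InP (RandC U) H := by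
  obtain ⟨U, hU, h⟩ := final (fun O pre => by convert accepts_inP O pre)
  exact ⟨U, hU, h HALT halt_re, h⟩

end Pool.Agent.Results.MP_90f04a_lc.HaltPTuring
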